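import Pool.Agent.Y669.TA.Plac
set_option autoImplicit false

/-! The first-order theory of a plactic monoid of infinite rank is not arithmetical. Stronger form
of `PlacticUndecidable`. -/

namespace Pool.Agent.Results.MP_54e6ab_lc.NotArithmetical

open Pool.Agent.H358R3.Plac Pool.Agent.Y669.TA

/-- The set of the Goedel numbers of the sentences that are true in the plactic monoid `P(A)`, the
constant symbols `c ∈ C` naming the generators `g c`. -/
def Theory {A C : Type} [LinearOrder A] [Encodable C] (g : C → A) (n : ℕ) : Prop :=
  ∃ φ : (LC C).Sentence, code φ = n ∧ TrueIn g φ

/-- For every infinite totally ordered set `A` and all constant symbols `c ∈ C` naming generators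
`g c` (for instance `C = A = ℕ` or `C = A = ℤ` and `g = id`, or no constants at all), every
arithmetical set of natural numbers is many-one reducible to the first-order theory of the plactic
monoid `P(A)`; so this theory is not arithmetical, in particular not decidable. -/
theorem result (A : Type) [LinearOrder A] [Infinite A] (C : Type) [Encodable C] (g : C → A) :
    (∀ B : ℕ → Prop, Arithmetical B → B ≤₀ Theory g) ∧ ¬ Arithmetical (Theory g) ∧
    ¬ DecidableTheory g :=
  ⟨fun _ hB => Plac.reducible g hB, not_arithmetical fun _ hB => Plac.reducible g hB,
    fun h => not_arithmetical (fun _ hB => Plac.reducible g hB) (.comp _ h)⟩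

end Pool.Agent.Results.MP_54e6ab_lc.NotArithmetical
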